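import Pool.Agent.W262.TW.Stm

set_option autoImplicit false

namespace Pool.Agent.W405.TW

open Finset Pool.Agent.W262.RK Pool.Agent.W262.TW

lemma abs_Jr_le' (a : ℤ) (n : ℕ) : |Jr a n| ≤ 1 := by
  unfold Jr
  rcases jacobiSym.trichotomy a n with h | h | h <;> rw [h] <;> simp

/-- counting the points between two hyperbolas -/
lemma card_le (T m r M L N : ℕ) (hM : 1 ≤ M) (hm : M ≤ m) (hr : m ≤ r) (hrL : r ≤ m + L) :
    (((Ioc N (2 * N)).filter (fun n => m * n ≤ T ∧ T < r * n)).card : ℝ) ≤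
      (T : ℝ) * L / ((M : ℝ) * M) + 1 := by
  have hm0 : 0 < m := by omega
  have hr0 : 0 < r := by omega
  have hsub : (Ioc N (2 * N)).filter (fun n => m * n ≤ T ∧ T < r * n) ⊆ Ioc (T / r) (T / m) := by
    intro n hn
    rw [mem_filter] at hn
    obtain ⟨_, h1, h2⟩ := hn
    rw [mem_Ioc, Nat.div_lt_iff_lt_mul hr0, Nat.le_div_iff_mul_le hm0]
    exact ⟨by rw [mul_comm]; exact h2, by rw [mul_comm]; exact h1⟩
  have hcard := card_le_card hsub
  rw [Nat.card_Ioc] at hcard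
  have hxy : T / r ≤ T / m := Nat.div_le_div_left hr hm0
  have h1 : (((Ioc N (2 * N)).filter (fun n => m * n ≤ T ∧ T < r * n)).card : ℝ) ≤
      ((T / m : ℕ) : ℝ) - ((T / r : ℕ) : ℝ) := by
    rw [← Nat.cast_sub hxy]
    exact_mod_cast hcard
  have h2 : ((T / m : ℕ) : ℝ) ≤ (T : ℝ) / m := Nat.cast_div_le
  have h3 : (T : ℝ) / r ≤ ((T / r : ℕ) : ℝ) + 1 := by
    have h4 : T < r * (T / r + 1) := Nat.lt_mul_div_succ T hr0
    have h5 : (T : ℝ) < r * (((T / r : ℕ) : ℝ) + 1) := by exact_mod_cast h4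
    have hr' : (0 : ℝ) < r := by exact_mod_cast hr0
    rw [div_le_iff₀ hr']
    linarith
  have hmR : (0 : ℝ) < m := by exact_mod_cast hm0
  have hrR : (0 : ℝ) < r := by exact_mod_cast hr0
  have hMR : (0 : ℝ) < M := by exact_mod_cast hM
  have h6 : (T : ℝ) / m - (T : ℝ) / r ≤ (T : ℝ) * L / ((M : ℝ) * M) := by
    have e1 : (T : ℝ) / m - (T : ℝ) / r = (T : ℝ) * (r - m) / (m * r) := by
      field_simp
    rw [e1]
    have e2 : (r : ℝ) - m ≤ L := by
      have : (r : ℝ) ≤ m + L := by exact_mod_cast hrL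
      linarith
    have e3 : (0 : ℝ) ≤ (r : ℝ) - m := by
      have : (m : ℝ) ≤ r := by exact_mod_cast hr
      linarith
    have e4 : (M : ℝ) ≤ m := by exact_mod_cast hm
    have e5 : (M : ℝ) ≤ r := by exact_mod_cast hm.trans hr
    gcongr
  linarith

/-- decomposition into blocks -/
lemma block_bound (C : ℝ) (E : ℕ) (hBL : ∀ M N : ℕ, 1 ≤ M → 1 ≤ N → ∀ a b : ℕ → ℝ,
    (∀ m, |a m| ≤ 1) → (∀ m, |b m| ≤ 1) → (∀ m, a m ≠ 0 → Odd m ∧ Squarefree m) →
    (∀ m, b m ≠ 0 → Odd m ∧ Squarefree m) →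
    |∑ m ∈ Ioc M (2 * M), ∑ n ∈ Ioc N (2 * N), a m * b n * Jr m n| ≤
      C * (Real.log (4 * M * N)) ^ E * (M * N) *
        ((M : ℝ) ^ (-(1 / 6 : ℝ)) + (N : ℝ) ^ (-(1 / 6 : ℝ))))
    (M N T H : ℕ) (hM : 1 ≤ M) (hN : 1 ≤ N) (hH : 1 ≤ H) (a b : ℕ → ℝ)
    (ha : ∀ m, |a m| ≤ 1) (hb : ∀ m, |b m| ≤ 1) (ha' : ∀ m, a m ≠ 0 → Odd m ∧ Squarefree m)
    (hb' : ∀ m, b m ≠ 0 → Odd m ∧ Squarefree m) :
    |∑ m ∈ Ioc M (2 * M), ∑ n ∈ Ioc N (2 * N), (if m * n ≤ T then a m * b n * Jr m n else 0)| ≤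
      H * (C * (Real.log (4 * M * N)) ^ E * (M * N) *
        ((M : ℝ) ^ (-(1 / 6 : ℝ)) + (N : ℝ) ^ (-(1 / 6 : ℝ)))) +
      M * ((T : ℝ) * ((M / H + 1 : ℕ) : ℝ) / ((M : ℝ) * M) + 1) := by
  set L : ℕ := M / H + 1 with hL
  have hL0 : 0 < L := Nat.succ_pos _
  set hm : ℕ → ℕ := fun m => (m - M - 1) / L with hhm
  set r : ℕ → ℕ := fun m => M + (hm m + 1) * L with hr
  have hmH : ∀ m ∈ Ioc M (2 * M), hm m < H := by
    intro m hm'
    rw [mem_Ioc] at hm'
    rw [hhm]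
    simp only
    rw [Nat.div_lt_iff_lt_mul hL0]
    have h1 : M < H * (M / H + 1) := Nat.lt_mul_div_succ M hH
    rw [hL]
    omega
  have hmr : ∀ m ∈ Ioc M (2 * M), m ≤ r m ∧ r m ≤ m + L := by
    intro m hm'
    rw [mem_Ioc] at hm'
    have h1 := Nat.div_add_mod (m - M - 1) L
    have h2 := Nat.mod_lt (m - M - 1) hL0
    have h3 : r m = M + L * ((m - M - 1) / L) + L := by
      rw [hr, hhm]; ring
    rw [h3]
    constructor <;> omega
  have hsplit : ∑ m ∈ Ioc M (2 * M), ∑ n ∈ Ioc N (2 * N),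
      (if m * n ≤ T then a m * b n * Jr m n else 0) =
      (∑ m ∈ Ioc M (2 * M), ∑ n ∈ Ioc N (2 * N),
        (if r m * n ≤ T then a m * b n * Jr m n else 0)) +
      ∑ m ∈ Ioc M (2 * M), ∑ n ∈ Ioc N (2 * N),
        (if m * n ≤ T ∧ T < r m * n then a m * b n * Jr m n else 0) := by
    rw [← sum_add_distrib]
    refine sum_congr rfl fun m hm' => ?_
    rw [← sum_add_distrib]
    refine sum_congr rfl fun n _ => ?_
    have h1 : m * n ≤ r m * n := Nat.mul_le_mul_right n (hmr m hm').1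
    by_cases h2 : r m * n ≤ T
    · rw [if_pos (h1.trans h2), if_pos h2, if_neg (fun h => absurd h.2 (not_lt.mpr h2)), add_zero]
    · rw [if_neg h2, zero_add]
      by_cases h3 : m * n ≤ T
      · rw [if_pos h3, if_pos ⟨h3, not_le.mp h2⟩]
      · rw [if_neg h3, if_neg (fun h => h3 h.1)]
  rw [hsplit]
  refine (abs_add_le _ _).trans (add_le_add ?_ ?_)
  · -- the blocks
    have h1 : ∑ m ∈ Ioc M (2 * M), ∑ n ∈ Ioc N (2 * N),
        (if r m * n ≤ T then a m * b n * Jr m n else 0) =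
        ∑ h ∈ range H, ∑ m ∈ Ioc M (2 * M), ∑ n ∈ Ioc N (2 * N),
          (if hm m = h then a m else 0) * (if (M + (h + 1) * L) * n ≤ T then b n else 0) *
            Jr m n := by
      rw [sum_comm (s := range H)]
      refine sum_congr rfl fun m hm' => ?_
      rw [sum_comm (s := range H)]
      refine sum_congr rfl fun n _ => ?_
      rw [sum_eq_single (hm m)]
      · rw [if_pos rfl]
        by_cases h2 : r m * n ≤ T
        · have h2' : (M + (hm m + 1) * L) * n ≤ T := h2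
          rw [if_pos h2, if_pos h2']
        · have h2' : ¬ (M + (hm m + 1) * L) * n ≤ T := h2
          rw [if_neg h2, if_neg h2', mul_zero, zero_mul]
      · intro h _ hh
        rw [if_neg (fun e => hh e.symm), zero_mul, zero_mul]
      · intro hh
        exact absurd (mem_range.mpr (hmH m hm')) hh
    rw [h1]
    refine (abs_sum_le_sum_abs _ _).trans ?_
    have h2 : ∀ h ∈ range H, |∑ m ∈ Ioc M (2 * M), ∑ n ∈ Ioc N (2 * N),
          (if hm m = h then a m else 0) * (if (M + (h + 1) * L) * n ≤ T then b n else 0) *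
            Jr m n| ≤ C * (Real.log (4 * M * N)) ^ E * (M * N) *
        ((M : ℝ) ^ (-(1 / 6 : ℝ)) + (N : ℝ) ^ (-(1 / 6 : ℝ))) := by
      intro h _
      refine hBL M N hM hN (fun m => if hm m = h then a m else 0)
        (fun n => if (M + (h + 1) * L) * n ≤ T then b n else 0) ?_ ?_ ?_ ?_
      · intro m
        split_ifs
        · exact ha m
        · simp
      · intro m
        split_ifs
        · exact hb m
        · simp
      · intro m hm'
        split_ifs at hm'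
        · exact ha' m hm'
        · exact absurd rfl hm'
      · intro m hm'
        split_ifs at hm'
        · exact hb' m hm'
        · exact absurd rfl hm'
    refine (sum_le_sum h2).trans ?_
    rw [sum_const, card_range, nsmul_eq_mul]
  · -- the rest
    refine (abs_sum_le_sum_abs _ _).trans ?_
    have h2 : ∀ m ∈ Ioc M (2 * M), |∑ n ∈ Ioc N (2 * N),
        (if m * n ≤ T ∧ T < r m * n then a m * b n * Jr m n else 0)| ≤
        (T : ℝ) * L / ((M : ℝ) * M) + 1 := by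
      intro m hm'
      have hm'' := hm'
      rw [mem_Ioc] at hm''
      refine (abs_sum_le_sum_abs _ _).trans ?_
      refine le_trans ?_ (card_le T m (r m) M L N hM hm''.1.le (hmr m hm').1 (hmr m hm').2)
      rw [card_filter, Nat.cast_sum]
      refine sum_le_sum fun n _ => ?_
      by_cases h3 : m * n ≤ T ∧ T < r m * n
      · rw [if_pos h3, if_pos h3, abs_mul, abs_mul]
        have e1 := ha m
        have e2 := hb n
        have e3 := abs_Jr_le' m n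
        have e4 : |a m| * |b n| ≤ 1 := mul_le_one₀ e1 (abs_nonneg _) e2
        simpa using mul_le_one₀ e4 (abs_nonneg _) e3
      · rw [if_neg h3, if_neg h3, abs_zero]
        simp
    refine (sum_le_sum h2).trans ?_
    rw [sum_const, Nat.card_Ioc, nsmul_eq_mul]
    have : 2 * M - M = M := by omega
    rw [this]

/-- real arithmetic in one box -/
lemma box (C : ℝ) (E : ℕ) (hBL : ∀ M N : ℕ, 1 ≤ M → 1 ≤ N → ∀ a b : ℕ → ℝ,
    (∀ m, |a m| ≤ 1) → (∀ m, |b m| ≤ 1) → (∀ m, a m ≠ 0 → Odd m ∧ Squarefree m) →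
    (∀ m, b m ≠ 0 → Odd m ∧ Squarefree m) →
    |∑ m ∈ Ioc M (2 * M), ∑ n ∈ Ioc N (2 * N), a m * b n * Jr m n| ≤
      C * (Real.log (4 * M * N)) ^ E * (M * N) *
        ((M : ℝ) ^ (-(1 / 6 : ℝ)) + (N : ℝ) ^ (-(1 / 6 : ℝ))))
    (V M N T : ℕ) (hV : 2 ≤ V) (hVM : V ≤ M) (hVN : V ≤ N) (hT : 2 ≤ T) (hMN : M * N ≤ T)
    (a b : ℕ → ℝ)
    (ha : ∀ m, |a m| ≤ 1) (hb : ∀ m, |b m| ≤ 1) (ha' : ∀ m, a m ≠ 0 → Odd m ∧ Squarefree m)
    (hb' : ∀ m, b m ≠ 0 → Odd m ∧ Squarefree m) :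
    |∑ m ∈ Ioc M (2 * M), ∑ n ∈ Ioc N (2 * N), (if m * n ≤ T then a m * b n * Jr m n else 0)| ≤
      (4 * |C| * 3 ^ E * (Real.log T) ^ E + 3) * T * (V : ℝ) ^ (-(1 / 24 : ℝ)) := by
  have hVR : (2 : ℝ) ≤ V := by exact_mod_cast hV
  have hV0 : (0 : ℝ) < V := by linarith
  have hV1 : (1 : ℝ) ≤ V := by linarith
  set v : ℝ := (V : ℝ) ^ (1 / 24 : ℝ) with hv
  have hv1 : 1 ≤ v := Real.one_le_rpow hV1 (by norm_num)
  have hvV : v ≤ V := by
    calc v ≤ (V : ℝ) ^ (1 : ℝ) := Real.rpow_le_rpow_of_exponent_le hV1 (by norm_num)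
      _ = V := Real.rpow_one _
  set H : ℕ := ⌈v⌉₊ with hH
  have hvH : v ≤ H := Nat.le_ceil v
  have hH1 : 1 ≤ H := by
    have : (1 : ℝ) ≤ H := hv1.trans hvH
    exact_mod_cast this
  have hH2 : (H : ℝ) ≤ 2 * v := by
    have := Nat.ceil_lt_add_one (by linarith : 0 ≤ v)
    rw [← hH] at this
    linarith
  have hHV : H ≤ V := Nat.ceil_le.mpr hvV
  have hM1 : 1 ≤ M := by omega
  have hN1 : 1 ≤ N := by omega
  have h := block_bound C E hBL M N T H hM1 hN1 hH1 a b ha hb ha' hb'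
  refine h.trans ?_
  have hMR : (V : ℝ) ≤ M := by exact_mod_cast hVM
  have hNR : (V : ℝ) ≤ N := by exact_mod_cast hVN
  have hM0 : (0 : ℝ) < M := by linarith
  have hN0 : (0 : ℝ) < N := by linarith
  have hMNR : (M : ℝ) * N ≤ T := by exact_mod_cast hMN
  have hTR : (2 : ℝ) ≤ T := by exact_mod_cast hT
  have hT0 : (0 : ℝ) < T := by linarith
  have hMN1 : (1 : ℝ) ≤ M * N := by
    have h1 : (1 : ℝ) ≤ M := by linarith
    have h2 : (1 : ℝ) ≤ N := by linarith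
    nlinarith
  -- logarithms
  have hlog : Real.log (4 * M * N) ≤ 3 * Real.log T := by
    have h1 : (4 : ℝ) * M * N ≤ (T : ℝ) ^ 3 := by nlinarith [sq_nonneg ((T : ℝ) - 2)]
    calc Real.log (4 * M * N) ≤ Real.log ((T : ℝ) ^ 3) := Real.log_le_log (by positivity) h1
      _ = 3 * Real.log T := by rw [Real.log_pow]; norm_num
  have hlog0 : 0 ≤ Real.log (4 * M * N) := Real.log_nonneg (by nlinarith)
  have hlogE : (Real.log (4 * M * N)) ^ E ≤ 3 ^ E * (Real.log T) ^ E := by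
    rw [← mul_pow]
    exact pow_le_pow_left₀ hlog0 hlog E
  -- powers
  have hpM : (M : ℝ) ^ (-(1 / 6 : ℝ)) ≤ (V : ℝ) ^ (-(1 / 6 : ℝ)) :=
    Real.rpow_le_rpow_of_nonpos hV0 hMR (by norm_num)
  have hpN : (N : ℝ) ^ (-(1 / 6 : ℝ)) ≤ (V : ℝ) ^ (-(1 / 6 : ℝ)) :=
    Real.rpow_le_rpow_of_nonpos hV0 hNR (by norm_num)
  have hpV0 : 0 < (V : ℝ) ^ (-(1 / 6 : ℝ)) := Real.rpow_pos_of_pos hV0 _
  have hpM0 : 0 < (M : ℝ) ^ (-(1 / 6 : ℝ)) := Real.rpow_pos_of_pos hM0 _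
  have hpN0 : 0 < (N : ℝ) ^ (-(1 / 6 : ℝ)) := Real.rpow_pos_of_pos hN0 _
  have hlogT0 : 0 ≤ Real.log T := Real.log_nonneg (by linarith)
  set w : ℝ := (V : ℝ) ^ (-(1 / 24 : ℝ)) with hw
  have hw0 : 0 < w := Real.rpow_pos_of_pos hV0 _
  have hvw : v * w = 1 := by
    rw [hv, hw, ← Real.rpow_add hV0]
    norm_num
  have hvV6 : v * (V : ℝ) ^ (-(1 / 6 : ℝ)) ≤ w := by
    rw [hv, hw, ← Real.rpow_add hV0]
    exact Real.rpow_le_rpow_of_exponent_le hV1 (by norm_num)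
  have hVw : (V : ℝ)⁻¹ ≤ w := by
    rw [hw, ← Real.rpow_neg_one]
    exact Real.rpow_le_rpow_of_exponent_le hV1 (by norm_num)
  -- the first part
  have hfirst : H * (C * (Real.log (4 * M * N)) ^ E * (M * N) *
        ((M : ℝ) ^ (-(1 / 6 : ℝ)) + (N : ℝ) ^ (-(1 / 6 : ℝ)))) ≤
      4 * |C| * 3 ^ E * (Real.log T) ^ E * T * w := by
    have h1 : C * (Real.log (4 * M * N)) ^ E ≤ |C| * (3 ^ E * (Real.log T) ^ E) :=
      (mul_le_mul_of_nonneg_right (le_abs_self C) (by positivity)).trans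
        (mul_le_mul_of_nonneg_left hlogE (abs_nonneg C))
    have h2 : C * (Real.log (4 * M * N)) ^ E * (M * N) ≤
        |C| * (3 ^ E * (Real.log T) ^ E) * T :=
      (mul_le_mul_of_nonneg_right h1 (by positivity)).trans
        (mul_le_mul_of_nonneg_left hMNR (by positivity))
    have h3 : C * (Real.log (4 * M * N)) ^ E * (M * N) *
        ((M : ℝ) ^ (-(1 / 6 : ℝ)) + (N : ℝ) ^ (-(1 / 6 : ℝ))) ≤
        |C| * (3 ^ E * (Real.log T) ^ E) * T * (2 * (V : ℝ) ^ (-(1 / 6 : ℝ))) :=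
      (mul_le_mul_of_nonneg_right h2 (by positivity)).trans
        (mul_le_mul_of_nonneg_left (by linarith) (by positivity))
    calc H * (C * (Real.log (4 * M * N)) ^ E * (M * N) *
        ((M : ℝ) ^ (-(1 / 6 : ℝ)) + (N : ℝ) ^ (-(1 / 6 : ℝ))))
        ≤ H * (|C| * (3 ^ E * (Real.log T) ^ E) * T * (2 * (V : ℝ) ^ (-(1 / 6 : ℝ)))) :=
          mul_le_mul_of_nonneg_left h3 (by positivity)
      _ ≤ (2 * v) * (|C| * (3 ^ E * (Real.log T) ^ E) * T * (2 * (V : ℝ) ^ (-(1 / 6 : ℝ)))) :=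
          mul_le_mul_of_nonneg_right hH2 (by positivity)
      _ = 4 * |C| * 3 ^ E * (Real.log T) ^ E * T * (v * (V : ℝ) ^ (-(1 / 6 : ℝ))) := by ring
      _ ≤ 4 * |C| * 3 ^ E * (Real.log T) ^ E * T * w :=
          mul_le_mul_of_nonneg_left hvV6 (by positivity)
  -- the second part
  have hsecond : M * ((T : ℝ) * ((M / H + 1 : ℕ) : ℝ) / ((M : ℝ) * M) + 1) ≤ 3 * T * w := by
    have hH0 : (0 : ℝ) < H := by exact_mod_cast hH1
    have h1 : ((M / H + 1 : ℕ) : ℝ) ≤ 2 * (M / H) := by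
      have e1 : ((M / H : ℕ) : ℝ) ≤ (M : ℝ) / H := Nat.cast_div_le
      have e2 : (1 : ℝ) ≤ (M : ℝ) / H := by
        rw [le_div_iff₀ hH0, one_mul]
        exact_mod_cast hHV.trans hVM
      push_cast
      linarith
    have h2 : (T : ℝ) * ((M / H + 1 : ℕ) : ℝ) / ((M : ℝ) * M) ≤ 2 * T / (M * H) := by
      calc (T : ℝ) * ((M / H + 1 : ℕ) : ℝ) / ((M : ℝ) * M) ≤
          (T : ℝ) * (2 * (M / H)) / ((M : ℝ) * M) := by gcongr
        _ = 2 * T / (M * H) := by field_simp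
    have h3 : (H : ℝ)⁻¹ ≤ w := by
      have : w = v⁻¹ := eq_inv_of_mul_eq_one_right hvw
      rw [this]
      exact inv_anti₀ (by linarith) hvH
    have h4 : (M : ℝ) ≤ T * w := by
      have e1 : (M : ℝ) * V ≤ T := (mul_le_mul_of_nonneg_left hNR hM0.le).trans hMNR
      have e2 : (M : ℝ) ≤ T * (V : ℝ)⁻¹ := by
        rw [← div_eq_mul_inv, le_div_iff₀ hV0]
        exact e1
      exact e2.trans (mul_le_mul_of_nonneg_left hVw hT0.le)
    calc M * ((T : ℝ) * ((M / H + 1 : ℕ) : ℝ) / ((M : ℝ) * M) + 1)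
        ≤ M * (2 * T / (M * H) + 1) := by gcongr
      _ = 2 * T * (H : ℝ)⁻¹ + M := by field_simp
      _ ≤ 2 * T * w + T * w := by gcongr
      _ = 3 * T * w := by ring
  calc _ ≤ 4 * |C| * 3 ^ E * (Real.log T) ^ E * T * w + 3 * T * w := add_le_add hfirst hsecond
    _ = (4 * |C| * 3 ^ E * (Real.log T) ^ E + 3) * T * w := by ring

/-- dyadic decomposition -/
lemma dyadic (f : ℕ → ℝ) (V : ℕ) (k : ℕ) :
    ∑ i ∈ range k, ∑ m ∈ Ioc (V * 2 ^ i) (2 * (V * 2 ^ i)), f m = ∑ m ∈ Ioc V (V * 2 ^ k), f m := by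
  induction k with
  | zero => simp
  | succ k ih =>
    rw [sum_range_succ, ih]
    have h1 : 2 * (V * 2 ^ k) = V * 2 ^ (k + 1) := by rw [pow_succ]; ring
    rw [h1]
    exact sum_Ioc_consecutive f (Nat.le_mul_of_pos_right V (by positivity))
      (Nat.mul_le_mul_left V (Nat.pow_le_pow_right (by norm_num) (by omega)))

lemma dyadic' (f : ℕ → ℝ) (V T : ℕ) (k : ℕ) (hk : T ≤ V * 2 ^ k)
    (hf : ∀ m, m ∉ Ioc V T → f m = 0) :
    ∑ m ∈ Ioc V T, f m = ∑ i ∈ range k, ∑ m ∈ Ioc (V * 2 ^ i) (2 * (V * 2 ^ i)), f m := by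
  rw [dyadic]
  exact sum_subset (Ioc_subset_Ioc_right hk) fun m _ hm => hf m hm

theorem blt (h : BL) : BLT := by
  obtain ⟨C, E, hBL⟩ := h
  refine ⟨9 * (4 * |C| * 3 ^ E + 3 / (Real.log 2) ^ E), E + 2, ?_⟩
  intro V T hV hT a b ha hb ha' hb'
  classical
  set a' : ℕ → ℝ := fun m => if m ∈ Ioc V T then a m else 0 with hadef
  set b' : ℕ → ℝ := fun m => if m ∈ Ioc V T then b m else 0 with hbdef
  have ha1 : ∀ m, |a' m| ≤ 1 := by
    intro m
    rw [hadef]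
    simp only
    split_ifs
    · exact ha m
    · simp
  have hb1 : ∀ m, |b' m| ≤ 1 := by
    intro m
    rw [hbdef]
    simp only
    split_ifs
    · exact hb m
    · simp
  have ha2 : ∀ m, a' m ≠ 0 → Odd m ∧ Squarefree m := by
    intro m hm
    rw [hadef] at hm
    simp only at hm
    split_ifs at hm
    · exact ha' m hm
    · exact absurd rfl hm
  have hb2 : ∀ m, b' m ≠ 0 → Odd m ∧ Squarefree m := by
    intro m hm
    rw [hbdef] at hm
    simp only at hm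
    split_ifs at hm
    · exact hb' m hm
    · exact absurd rfl hm
  set g : ℕ → ℕ → ℝ := fun m n => if m * n ≤ T then a' m * b' n * Jr m n else 0 with hg
  have hg1 : ∀ m n, m ∉ Ioc V T → g m n = 0 := by
    intro m n hm
    rw [hg, hadef]
    simp only
    rw [if_neg hm]
    simp
  have hg2 : ∀ m n, n ∉ Ioc V T → g m n = 0 := by
    intro m n hn
    rw [hg, hbdef]
    simp only
    rw [if_neg hn]
    simp
  set k : ℕ := Nat.log 2 T + 1 with hk
  have hkT : T ≤ V * 2 ^ k := by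
    have h1 : T < 2 ^ k := Nat.lt_pow_succ_log_self (by norm_num) T
    have h2 : 2 ^ k ≤ V * 2 ^ k := Nat.le_mul_of_pos_left _ (by omega)
    omega
  have hS : ∑ m ∈ Ioc V T, ∑ n ∈ (Ioc V T).filter (fun n => m * n ≤ T), a m * b n * Jr m n =
      ∑ i ∈ range k, ∑ j ∈ range k, ∑ m ∈ Ioc (V * 2 ^ i) (2 * (V * 2 ^ i)),
        ∑ n ∈ Ioc (V * 2 ^ j) (2 * (V * 2 ^ j)), g m n := by
    have e1 : ∑ m ∈ Ioc V T, ∑ n ∈ (Ioc V T).filter (fun n => m * n ≤ T), a m * b n * Jr m n =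
        ∑ m ∈ Ioc V T, ∑ n ∈ Ioc V T, g m n := by
      refine sum_congr rfl fun m hm => ?_
      rw [sum_filter]
      refine sum_congr rfl fun n hn => ?_
      rw [hg, hadef, hbdef]
      simp only
      rw [if_pos hm, if_pos hn]
    rw [e1, dyadic' (fun m => ∑ n ∈ Ioc V T, g m n) V T k hkT
      (fun m hm => sum_eq_zero fun n _ => hg1 m n hm)]
    refine sum_congr rfl fun i _ => ?_
    rw [sum_comm (s := range k)]
    refine sum_congr rfl fun m _ => ?_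
    exact dyadic' (fun n => g m n) V T k hkT (fun n hn => hg2 m n hn)
  rw [hS]
  have hTR : (2 : ℝ) ≤ T := by exact_mod_cast hT
  have hT0 : (0 : ℝ) < T := by linarith
  have hlogT0 : 0 ≤ Real.log T := Real.log_nonneg (by linarith)
  have hV0 : (0 : ℝ) < V := by
    have : (2 : ℝ) ≤ V := by exact_mod_cast hV
    linarith
  have hw0 : 0 < (V : ℝ) ^ (-(1 / 24 : ℝ)) := Real.rpow_pos_of_pos hV0 _
  set B : ℝ := (4 * |C| * 3 ^ E * (Real.log T) ^ E + 3) * T * (V : ℝ) ^ (-(1 / 24 : ℝ)) with hB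
  have hB0 : 0 ≤ B := by positivity
  have hbox : ∀ i j, |∑ m ∈ Ioc (V * 2 ^ i) (2 * (V * 2 ^ i)),
        ∑ n ∈ Ioc (V * 2 ^ j) (2 * (V * 2 ^ j)), g m n| ≤ B := by
    intro i j
    by_cases hMN : (V * 2 ^ i) * (V * 2 ^ j) ≤ T
    · exact box C E hBL V (V * 2 ^ i) (V * 2 ^ j) T hV
        (Nat.le_mul_of_pos_right V (by positivity)) (Nat.le_mul_of_pos_right V (by positivity))
        hT hMN a' b' ha1 hb1 ha2 hb2
    · have : ∑ m ∈ Ioc (V * 2 ^ i) (2 * (V * 2 ^ i)),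
        ∑ n ∈ Ioc (V * 2 ^ j) (2 * (V * 2 ^ j)), g m n = 0 := by
        refine sum_eq_zero fun m hm => sum_eq_zero fun n hn => ?_
        rw [mem_Ioc] at hm hn
        have h1 : (V * 2 ^ i) * (V * 2 ^ j) ≤ m * n := Nat.mul_le_mul hm.1.le hn.1.le
        have h2 : ¬ m * n ≤ T := by omega
        rw [hg]
        simp only
        rw [if_neg h2]
      rw [this, abs_zero]
      exact hB0
  have hsum : |∑ i ∈ range k, ∑ j ∈ range k, ∑ m ∈ Ioc (V * 2 ^ i) (2 * (V * 2 ^ i)),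
        ∑ n ∈ Ioc (V * 2 ^ j) (2 * (V * 2 ^ j)), g m n| ≤ (k : ℝ) * (k * B) := by
    refine (abs_sum_le_sum_abs _ _).trans ?_
    have h1 : ∀ i ∈ range k, |∑ j ∈ range k, ∑ m ∈ Ioc (V * 2 ^ i) (2 * (V * 2 ^ i)),
        ∑ n ∈ Ioc (V * 2 ^ j) (2 * (V * 2 ^ j)), g m n| ≤ k * B := by
      intro i _
      refine (abs_sum_le_sum_abs _ _).trans ?_
      refine (sum_le_sum fun j _ => hbox i j).trans ?_
      rw [sum_const, card_range, nsmul_eq_mul]
    refine (sum_le_sum h1).trans ?_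
    rw [sum_const, card_range, nsmul_eq_mul]
  refine hsum.trans ?_
  -- the number of the boxes
  have hlog2 : (2 / 3 : ℝ) ≤ Real.log 2 := by
    have := Real.log_two_gt_d9
    linarith
  have hlog2pos : 0 < Real.log 2 := by linarith
  have hlogT2 : Real.log 2 ≤ Real.log T := Real.log_le_log (by norm_num) hTR
  have hk3 : (k : ℝ) ≤ 3 * Real.log T := by
    have h1 : (2 : ℝ) ^ (Nat.log 2 T) ≤ T := by
      have : 2 ^ (Nat.log 2 T) ≤ T := Nat.pow_log_le_self 2 (by omega)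
      exact_mod_cast this
    have h2 : (Nat.log 2 T : ℝ) * Real.log 2 ≤ Real.log T := by
      rw [← Real.log_pow]
      exact Real.log_le_log (by positivity) h1
    have h3 : (k : ℝ) * Real.log 2 ≤ 2 * Real.log T := by
      rw [hk]
      push_cast
      nlinarith
    nlinarith [Nat.cast_nonneg (α := ℝ) k]
  have hkk : (k : ℝ) * (k * B) ≤ 9 * (Real.log T) ^ 2 * B := by
    have h1 : (k : ℝ) * k ≤ (3 * Real.log T) * (3 * Real.log T) :=
      mul_le_mul hk3 hk3 (Nat.cast_nonneg _) (by positivity)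
    calc (k : ℝ) * (k * B) = (k * k) * B := by ring
      _ ≤ ((3 * Real.log T) * (3 * Real.log T)) * B := mul_le_mul_of_nonneg_right h1 hB0
      _ = 9 * (Real.log T) ^ 2 * B := by ring
  refine hkk.trans ?_
  have h3 : (3 : ℝ) ≤ 3 / (Real.log 2) ^ E * (Real.log T) ^ E := by
    rw [div_mul_eq_mul_div, le_div_iff₀ (by positivity)]
    exact mul_le_mul_of_nonneg_left (pow_le_pow_left₀ hlog2pos.le hlogT2 E) (by norm_num)
  calc 9 * (Real.log T) ^ 2 * B
      = 9 * (Real.log T) ^ 2 * ((4 * |C| * 3 ^ E * (Real.log T) ^ E + 3) * T *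
        (V : ℝ) ^ (-(1 / 24 : ℝ))) := rfl
    _ ≤ 9 * (Real.log T) ^ 2 * ((4 * |C| * 3 ^ E * (Real.log T) ^ E +
        3 / (Real.log 2) ^ E * (Real.log T) ^ E) * T * (V : ℝ) ^ (-(1 / 24 : ℝ))) := by
        gcongr
    _ = 9 * (4 * |C| * 3 ^ E + 3 / (Real.log 2) ^ E) * (Real.log T) ^ (E + 2) * T *
        (V : ℝ) ^ (-(1 / 24 : ℝ)) := by ring

end Pool.Agent.W405.TW
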